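import Pool.Agent.N905.EX.MiniU

set_option autoImplicit false

/-! The number of cycles and grand orbits of the `3x+k` maps which meet `[-X, X]`: the explicit exponent
`0.94`, uniformly in `k`. -/

namespace Pool.Agent.Results.MP_7f88e4_nt.GrandOrbitsExplicit

open Finset

/-- the `3x+k` map on the integers -/
def T (k x : ℤ) : ℤ := if x % 2 = 0 then x / 2 else (3 * x + k) / 2

/-- the element of least absolute value of a forward orbit -/
theorem exists_min (k x : ℤ) : ∃ i : ℕ, |(((T k)^[i] x : ℤ) : ℝ)| ≤ |(x : ℝ)| ∧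
    ∀ n : ℕ, |(((T k)^[i] x : ℤ) : ℝ)| ≤ |(((T k)^[n] ((T k)^[i] x) : ℤ) : ℝ)| := by
  classical
  have h1 : ∃ m : ℕ, ∃ i : ℕ, ((T k)^[i] x).natAbs = m := ⟨_, 0, rfl⟩
  obtain ⟨i, hi⟩ := Nat.find_spec h1
  have h2 : ∀ j : ℕ, ((T k)^[i] x).natAbs ≤ ((T k)^[j] x).natAbs := by
    intro j
    rw [hi]
    exact Nat.find_min' h1 ⟨j, rfl⟩
  have h3 : ∀ z : ℤ, |(z : ℝ)| = (z.natAbs : ℝ) := by
    intro z
    rw [← Int.cast_abs, Int.abs_eq_natAbs, Int.cast_natCast]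
  refine ⟨i, ?_, ?_⟩
  · rw [h3, h3]
    exact_mod_cast h2 0
  · intro n
    rw [h3, h3, ← Function.iterate_add_apply]
    exact_mod_cast h2 (n + i)

/-- There is `A > 0` such that for every odd integer `k` and every `X ≥ 1` there is a set `M` of at most
`A |k| ^ 0.06 X ^ 0.94` integers such that the orbit of every integer `x` with `|x| ≤ X` under the `3x+k`
map contains an element `m` of `M`, with `|m| ≤ |x|`; in particular at most `A |k| ^ 0.06 X ^ 0.94` cycles,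
and at most `A |k| ^ 0.06 X ^ 0.94` classes of integers whose orbits merge, have elements in `[-X, X]`. -/
theorem result :
    ∃ A : ℝ, 0 < A ∧ ∀ k : ℤ, k % 2 = 1 → ∀ X : ℝ, 1 ≤ X →
      ∃ M : Finset ℤ, (M.card : ℝ) ≤ A * |(k : ℝ)| ^ (6 / 100 : ℝ) * X ^ (94 / 100 : ℝ) ∧
        ∀ x : ℤ, |(x : ℝ)| ≤ X → ∃ m ∈ M, |(m : ℝ)| ≤ |(x : ℝ)| ∧ ∃ n : ℕ, (T k)^[n] x = m := by
  classical
  obtain ⟨A, hA, h⟩ := Pool.Agent.N905.EX.minU_ex
  refine ⟨A, hA, fun k hk X hX => ?_⟩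
  have hfin : {x : ℤ | |(x : ℝ)| ≤ X ∧ ∀ n : ℕ, |(x : ℝ)| ≤ |(((T k)^[n] x : ℤ) : ℝ)|}.Finite := by
    apply (Set.finite_Icc (-⌈X⌉) ⌈X⌉).subset
    rintro x ⟨hx, -⟩
    have h1 := abs_le.1 hx
    have h2 := Int.le_ceil X
    rw [Set.mem_Icc]
    constructor
    · have : (-(⌈X⌉ : ℤ) : ℝ) ≤ x := by linarith
      exact_mod_cast this
    · have : (x : ℝ) ≤ (⌈X⌉ : ℤ) := by linarith
      exact_mod_cast this
  refine ⟨hfin.toFinset, ?_, ?_⟩
  · apply h k (Int.odd_iff.2 hk) X hX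
    intro x hx
    rw [Set.Finite.mem_toFinset] at hx
    exact hx
  · intro x hx
    obtain ⟨i, hi1, hi2⟩ := exists_min k x
    refine ⟨(T k)^[i] x, ?_, hi1, i, rfl⟩
    rw [Set.Finite.mem_toFinset]
    exact ⟨hi1.trans hx, hi2⟩

end Pool.Agent.Results.MP_7f88e4_nt.GrandOrbitsExplicit
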