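import Pool.Agent.N733.TG.K
import Pool.Agent.N255.TGX.Dyadic
import Pool.Agent.Results.MP_7f88e4_nt.PolynomialPairs

/-!
# The maps `3 x + H n` started at `F n`, for the integers `n` near the values of multiplicative functions

Let `F` and `H ≠ 0` be polynomials with integer coefficients, `deg H < deg F`, and `ε > 0`. Let `g` be a
positive multiplicative function of at most polynomial growth such that `g p ≤ M p` for the large primes
`p`, with different values at different large primes; for example Euler's function or the sum of the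
divisors. There is `δ > 0`, depending only on `F`, `H` and `ε`, such that for all `m ≤ N` but
`N / (log N)^U` the following holds for EVERY integer `n` with `H n` odd and `||n| - α g(m)| ≤ g(m)^κ`,
`κ < δ`, `α > 0`: the term `j` of the trajectory of `F n` under the map `T_{3,k}`, `k = H n`, is
`(√3 / 2)^j |F n|`, up to a factor between `|n|^(-ε)` and `|n|^ε`, for all `j ≤ log_2 |n|`. More generally
`G (g m)` takes the place of `α g(m)`, where `G` is any function with steps bounded below by a positive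
constant and growth at most `v^d`, `d (1 - δ) + κ < 1`. The values of `g` are in general taken with very
large multiplicities, and so this does not follow from the size of the exceptional set.

Proof. The starting theorem `PolynomialPairs` of this problem in the interval of length `2 X + 2` around
zero and dyadic summation bound the number of the exceptional integers in `[-X, X]` by `O(X^(1 - δ))`. Then
the tool `N733/TG`: multiplicative functions which are linear at the primes avoid such sets.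
-/

set_option autoImplicit false

namespace Pool.Agent.Results.MP_7f88e4_nt.MultiplicativeValues

open Polynomial
open Pool.Agent.N733.TG (LM Expanding lm_totient lm_sigma keep_good expanding_pow)
open Pool.Agent.Results.MP_7f88e4_nt.PolynomialPairs (T Follows)

/-- The factor may be given by the smaller number. -/
lemma follows_of {k x : ℤ} {ε Y n : ℝ} (hε : 0 < ε) (hn : 1 ≤ n) (hnY : n ≤ Y) (hY : Y ≤ n ^ 2)
    (h : Follows k (ε / 2) Y x) : Follows k ε n x := by
  have hn0 : 0 < n := by linarith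
  have hY0 : 0 < Y := by linarith
  have e1 : Y ^ (ε / 2) ≤ n ^ ε := by
    calc Y ^ (ε / 2) ≤ (n ^ 2) ^ (ε / 2) := Real.rpow_le_rpow hY0.le hY (by positivity)
      _ = n ^ ε := by
          rw [← Real.rpow_natCast, ← Real.rpow_mul hn0.le]
          congr 1
          push_cast
          ring
  have e2 : n ^ (-ε) ≤ Y ^ (-(ε / 2)) := by
    rw [Real.rpow_neg hn0.le, Real.rpow_neg hY0.le]
    exact inv_anti₀ (by positivity) e1
  intro j hj
  obtain ⟨h1, h2⟩ := h j (hj.trans hnY)
  have h3 : 0 ≤ (Real.sqrt 3 / 2) ^ j := by positivity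
  have h4 : 0 ≤ |(x : ℝ)| := abs_nonneg _
  constructor
  · refine le_trans ?_ h1
    gcongr
  · refine h2.trans ?_
    gcongr

/-- The exceptional integers. -/
def Bad (F H : ℤ[X]) (ε X : ℝ) : Set ℤ :=
  {n : ℤ | |(n : ℝ)| ≤ X ∧ H.eval n % 2 = 1 ∧ ¬ Follows (H.eval n) ε |(n : ℝ)| (F.eval n)}

lemma fin_int (X : ℝ) : {n : ℤ | |(n : ℝ)| ≤ X}.Finite := by
  apply (Set.finite_Icc (-⌈X⌉) ⌈X⌉).subset
  intro x hx
  have h1 := abs_le.1 (show |(x : ℝ)| ≤ X from hx)
  have h2 := Int.le_ceil X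
  rw [Set.mem_Icc]
  constructor
  · have : (-(⌈X⌉ : ℤ) : ℝ) ≤ x := by linarith
    exact_mod_cast this
  · have : (x : ℝ) ≤ (⌈X⌉ : ℤ) := by linarith
    exact_mod_cast this

lemma bad_fin (F H : ℤ[X]) (ε X : ℝ) : (Bad F H ε X).Finite :=
  (fin_int X).subset fun _ hn => hn.1

lemma count (F H : ℤ[X]) (hH : H ≠ 0) (hdeg : H.natDegree < F.natDegree) (ε : ℝ) (hε : 0 < ε) :
    ∃ δ K : ℝ, 0 < δ ∧ δ ≤ 1 / 2 ∧ ∀ X : ℝ, 1 ≤ X →
      ((Bad F H ε X).ncard : ℝ) ≤ K * X ^ (1 - δ) := by
  obtain ⟨⟨δ₀, K, hδ₀, hK, hP⟩, -⟩ :=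
    Pool.Agent.Results.MP_7f88e4_nt.PolynomialPairs.result F H hH hdeg (ε / 2) (by positivity)
  obtain ⟨δ, hδ⟩ : ∃ δ, δ = min δ₀ (1 / 2) := ⟨_, rfl⟩
  have hδ1 : 0 < δ := by rw [hδ]; exact lt_min hδ₀ (by norm_num)
  have hδ2 : δ ≤ 1 / 2 := by rw [hδ]; exact min_le_right _ _
  have hδ3 : δ ≤ δ₀ := by rw [hδ]; exact min_le_left _ _
  suffices hsuff : ∃ K' : ℝ, ∀ X : ℝ, 1 ≤ X → ((Bad F H ε X).ncard : ℝ) ≤ K' * X ^ (1 - δ) by
    obtain ⟨K', hK'⟩ := hsuff
    exact ⟨δ, K', hδ1, hδ2, hK'⟩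
  refine Pool.Agent.N255.TGX.dyadic (N := fun X => ((Bad F H ε X).ncard : ℝ))
    (s := 1 - δ) (C := K * 4) (B := 21) (X₀ := 10) (by linarith) (by positivity) (by norm_num)
    (by norm_num) ?_ ?_
  · intro X hX hX2
    have hsub : Bad F H ε X ⊆ ((Finset.Icc (-10) 10 : Finset ℤ) : Set ℤ) := by
      intro n hn
      have h1 := abs_le.1 hn.1
      rw [Finset.coe_Icc, Set.mem_Icc]
      constructor
      · have : ((-10 : ℤ) : ℝ) ≤ n := by push_cast; linarith
        exact_mod_cast this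
      · have : (n : ℝ) ≤ ((10 : ℤ) : ℝ) := by push_cast; linarith
        exact_mod_cast this
    have h2 := Set.ncard_le_ncard hsub (Finset.finite_toSet _)
    rw [Set.ncard_coe_finset] at h2
    have h3 : (Finset.Icc (-10) 10 : Finset ℤ).card = 21 := by decide
    rw [h3] at h2
    exact_mod_cast h2
  · intro X hX
    obtain ⟨a, ha⟩ : ∃ a : ℤ, a = -⌊X⌋ - 1 := ⟨_, rfl⟩
    obtain ⟨S, hS⟩ : ∃ S : Set ℤ, S = {n : ℤ | a < n ∧ (n : ℝ) ≤ a + (2 * X + 2) ∧
      H.eval n % 2 = 1 ∧ ¬ Follows (H.eval n) (ε / 2) (2 * X + 2) (F.eval n)} := ⟨_, rfl⟩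
    have hfl := Int.floor_le X
    have hSc : (S.ncard : ℝ) ≤ K * (2 * X + 2) ^ (1 - δ₀) := by
      rw [hS]
      exact hP a (2 * X + 2) (by linarith)
    have hSf : S.Finite := by
      apply (Set.finite_Icc a ⌈(a : ℝ) + (2 * X + 2)⌉).subset
      intro n hn
      rw [hS] at hn
      refine ⟨hn.1.le, ?_⟩
      have h1 := Int.le_ceil ((a : ℝ) + (2 * X + 2))
      exact_mod_cast (hn.2.1.trans h1)
    have hsub : Bad F H ε X ⊆ Bad F H ε (X / 2) ∪ S := by
      intro n hn
      by_cases hn2 : |(n : ℝ)| ≤ X / 2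
      · exact Or.inl ⟨hn2, hn.2⟩
      · right
        rw [hS]
        rw [not_le] at hn2
        obtain ⟨h1, h2, h3⟩ := hn
        have h1' := abs_le.1 h1
        refine ⟨?_, ?_, h2, fun h4 => h3 ?_⟩
        · have h5 : -n ≤ ⌊X⌋ := by
            rw [Int.le_floor]
            push_cast
            linarith
          rw [ha]
          omega
        · rw [ha]
          push_cast
          linarith
        · refine follows_of hε (by linarith) (by linarith) ?_ h4
          nlinarith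
    have hle : (2 * X + 2) ^ (1 - δ₀) ≤ 4 * X ^ (1 - δ) := by
      calc (2 * X + 2) ^ (1 - δ₀) ≤ (2 * X + 2) ^ (1 - δ) :=
            Real.rpow_le_rpow_of_exponent_le (by linarith) (by linarith)
        _ ≤ (4 * X) ^ (1 - δ) :=
            Real.rpow_le_rpow (by linarith) (by linarith) (by linarith)
        _ = 4 ^ (1 - δ) * X ^ (1 - δ) := Real.mul_rpow (by norm_num) (by linarith)
        _ ≤ 4 ^ (1 : ℝ) * X ^ (1 - δ) := by
            have h0 : 0 ≤ X ^ (1 - δ) := Real.rpow_nonneg (by linarith) _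
            gcongr
            · norm_num
            · linarith
        _ = 4 * X ^ (1 - δ) := by rw [Real.rpow_one]
    have h6 : ((Bad F H ε X).ncard : ℝ) ≤ (Bad F H ε (X / 2)).ncard + S.ncard := by
      have := (Set.ncard_le_ncard hsub ((bad_fin F H ε (X / 2)).union hSf)).trans
        (Set.ncard_union_le _ _)
      exact_mod_cast this
    show ((Bad F H ε X).ncard : ℝ) ≤ ((Bad F H ε (X / 2)).ncard : ℝ) + K * 4 * X ^ (1 - δ)
    have h7 := mul_le_mul_of_nonneg_left hle hK.le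
    linarith

/-- Let `F`, `H` be polynomials with integer coefficients, `H ≠ 0`, `deg H < deg F`, and `ε > 0`. There is
`δ > 0` such that for every multiplicative function `g` as in `LM` and every `G` which is `Expanding` of
order `d`, if `κ ≥ 0` and `d (1 - δ) + κ < 1`: for every `U` and all large `N`, for all `m ≤ N` but
`N / (log N)^U`, EVERY integer `n` with `H n` odd and `||n| - G (g m)| ≤ g(m)^κ` has the property that the
term `j` of the trajectory of `F n` under `T_{3, H n}` is `(√3 / 2)^j |F n|`, up to a factor between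
`|n|^(-ε)` and `|n|^ε`, for all `j` with `2^j ≤ |n|`. Euler's function and the sum of the divisors are
examples of such functions `g`, and `α v^d` with `α > 0`, `d ≥ 1` is an example of `G`. -/
theorem result :
    (∀ F H : ℤ[X], H ≠ 0 → H.natDegree < F.natDegree → ∀ ε : ℝ, 0 < ε → ∃ δ : ℝ, 0 < δ ∧
      ∀ g : ℕ → ℕ, LM g → ∀ (G : ℕ → ℝ) (d : ℝ), Expanding G d → ∀ κ : ℝ, 0 ≤ κ →
      d * (1 - δ) + κ < 1 → ∀ U : ℕ, ∃ N₀ : ℕ, ∀ N : ℕ, N₀ ≤ N →
      ({m : ℕ | 1 ≤ m ∧ m ≤ N ∧ ¬ ∀ n : ℤ, H.eval n % 2 = 1 →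
        |(|(n : ℝ)|) - G (g m)| ≤ (g m : ℝ) ^ κ →
          Follows (H.eval n) ε |(n : ℝ)| (F.eval n)}.ncard : ℝ) ≤ N / Real.log N ^ U) ∧
    (LM Nat.totient ∧ LM (fun m => ∑ d ∈ m.divisors, d)) ∧
    ∀ α d : ℝ, 0 < α → 1 ≤ d → Expanding (fun v => α * (v : ℝ) ^ d) d := by
  refine ⟨fun F H hH hdeg ε hε => ?_, ⟨lm_totient, lm_sigma⟩, fun α d hα hd => expanding_pow hα hd⟩
  obtain ⟨δ, K, hδ, hδ2, hc⟩ := count F H hH hdeg ε hε
  refine ⟨δ, hδ, fun g hg G d hG κ hκ h1 U => ?_⟩
  refine keep_good (fun n : ℤ => H.eval n % 2 = 1)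
    (fun n : ℤ => Follows (H.eval n) ε |(n : ℝ)| (F.eval n)) (fun n : ℤ => |(n : ℝ)|) hg hG
    (s := 1 - δ) (κ := κ) (by linarith) hκ h1 (fun ε' hε' => ?_) U
  refine ⟨|K|, fun X hX => ?_⟩
  have e : {t : ℤ | (H.eval t % 2 = 1 ∧ ¬ Follows (H.eval t) ε |(t : ℝ)| (F.eval t)) ∧
      |(t : ℝ)| ≤ X} = Bad F H ε X := by
    ext t
    simp only [Bad, Set.mem_ofPred_eq]
    tauto
  rw [e]
  refine ⟨bad_fin F H ε X, (hc X hX).trans ?_⟩
  have h2 : X ^ (1 - δ) ≤ X ^ (1 - δ + ε') := Real.rpow_le_rpow_of_exponent_le hX (by linarith)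
  have h3 : 0 ≤ X ^ (1 - δ) := Real.rpow_nonneg (by linarith) _
  calc K * X ^ (1 - δ) ≤ |K| * X ^ (1 - δ) := mul_le_mul_of_nonneg_right (le_abs_self K) h3
    _ ≤ |K| * X ^ (1 - δ + ε') := mul_le_mul_of_nonneg_left h2 (abs_nonneg K)

end Pool.Agent.Results.MP_7f88e4_nt.MultiplicativeValues
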