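import Pool.Agent.N905.EX.Loc

set_option autoImplicit false

/-!
Every orbit of every `3x+k` map is sparse in every interval, with an exponent strictly below the entropy
exponent and uniformly in the orbit, the interval and `k`.
-/

namespace Pool.Agent.Results.MP_7f88e4_nt.OrbitCountExplicit

/-- The `3x+k` map on the integers. -/
def T (k : ℤ) (x : ℤ) : ℤ := if x % 2 = 0 then x / 2 else (3 * x + k) / 2

/-- There is `A` such that for every odd `k`, every integer `x`, every real `y` and every `R ≥ 1` the orbit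
of `x` under the `3x+k` map contains at most `A |k| ^ 0.06 R ^ 0.94` integers of the interval
`[y - R, y + R]`. -/
theorem result : ∃ A : ℝ, ∀ k : ℤ, k % 2 = 1 → ∀ (x : ℤ) (y R : ℝ), 1 ≤ R →
      (Set.ncard {z : ℤ | (∃ n : ℕ, (T k)^[n] x = z) ∧ |(z : ℝ) - y| ≤ R} : ℝ) ≤
        A * |(k : ℝ)| ^ (6 / 100 : ℝ) * R ^ (94 / 100 : ℝ) := by
  classical
  obtain ⟨A, -, h⟩ := Pool.Agent.N905.EX.sparse_ex (η := 94 / 100) Pool.Agent.N905.EX.eta0_lt (by norm_num)
  rw [show (1 : ℝ) - 94 / 100 = 6 / 100 by norm_num] at h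
  refine ⟨A, ?_⟩
  intro k hk x y R hR
  set S : Set ℤ := {z : ℤ | (∃ n : ℕ, (T k)^[n] x = z) ∧ |(z : ℝ) - y| ≤ R} with hS
  have hfin : S.Finite := by
    apply (Set.finite_Icc (-⌈R - y⌉) ⌈R + y⌉).subset
    intro z hz
    have h := hz.2
    rw [abs_le] at h
    have h1 := Int.le_ceil (R - y)
    have h2 := Int.le_ceil (R + y)
    constructor
    · have : (-(⌈R - y⌉ : ℝ)) ≤ z := by linarith [h.1]
      exact_mod_cast this
    · have : (z : ℝ) ≤ ⌈R + y⌉ := by linarith [h.2]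
      exact_mod_cast this
  rw [Set.ncard_eq_toFinset_card S hfin]
  have hF : ∀ z ∈ hfin.toFinset, (∃ n : ℕ, (T k)^[n] x = z) ∧ |(z : ℝ) - y| ≤ R := by
    intro z hz
    rw [Set.Finite.mem_toFinset] at hz
    exact hz
  obtain ⟨r, hinj, hr⟩ := Pool.Agent.H319R2.G.finite_subset_path (T k) x hfin.toFinset
    (fun z hz => (hF z hz).1)
  apply h k (Int.odd_iff.2 hk) _ (Pool.Agent.H319R2.G.tame_path (T k) x r hinj) y R hR
  intro z hz
  obtain ⟨i, hi, he⟩ := hr z hz
  exact ⟨⟨i, hi, he⟩, (hF z hz).2⟩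

end Pool.Agent.Results.MP_7f88e4_nt.OrbitCountExplicit
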