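import Pool.Agent.N685.FD.UN

/-!
The maps `3x+k`: exact exponents for the numbers of integers whose orbit descends faster than a given
slope, on the whole side of the slopes which are larger than the mean one; uniformly in the level which
is reached, and for all levels and all times together.
-/

set_option autoImplicit false

namespace Pool.Agent.Results.MP_7f88e4_nt.UniformLawOfFastDescent

/-- The map `3x+k`. -/
def T (k : ℤ) (x : ℤ) : ℤ := if x % 2 = 0 then x / 2 else (3 * x + k) / 2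

/-- `g(a) = sup_θ (θ a - log (½ (2^θ + (2/3)^θ)))`. -/
noncomputable def g (a : ℝ) : ℝ :=
  ⨆ θ : ℝ, (θ * a - Real.log ((1 / 2) * ((2 : ℝ) ^ θ + (2 / 3 : ℝ) ^ θ)))

/-- The exponent. -/
noncomputable def e (α : ℝ) : ℝ := 1 - α * g (1 / α)

open Pool.Agent.N685.FD Pool.Agent.N685.FD.UN Pool.Agent.H395R2.G3

theorem e_eq {α : ℝ} (h : 1 / Real.log 2 < α) : e α = ex 3 α := by
  rw [ex_three, ← expo_eq h]
  rfl

/-- Let `1 / log 2 < α ≤ 2 / log (4/3)`. The exponent satisfies `0 < e(α) < 1` for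
`α < 2 / log (4/3)`, and `e(2 / log (4/3)) = 1`. Let `k` be prime to `6` and `s = ±1`.

(1) For every `ε > 0` there is `C ≥ 1` such that for all real `y ≥ 1` and `x ≥ C y` the number of the
integers `n` of the sign of `s` with `y < |n| ≤ x` and `|T^j(n)| ≤ y` for some `j ≤ α log (|n| / y)` is
between `y (x/y)^(e(α) - ε)` and `x^ε y (x/y)^(e(α))`.

(2) Let `0 < δ ≤ 1`. For every `ε > 0`, for all large `x`, the number of the integers `n` of the sign of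
`s` with `|n| ≤ x` such that, for some `j ≥ 0`, `|T^j(n)| ≤ |n|^(1 - δ)` and
`j ≤ α (log |n| - log |T^j(n)|)`, is between `x^(1 - δ (1 - e(α)) - ε)` and
`x^(1 - δ (1 - e(α)) + ε)`. -/
theorem result :
    (∀ α : ℝ, 1 / Real.log 2 < α → α < 2 / Real.log (4 / 3) → 0 < e α ∧ e α < 1) ∧
    e (2 / Real.log (4 / 3)) = 1 ∧
    ∀ k : ℤ, ¬ (2 : ℤ) ∣ k → ¬ (3 : ℤ) ∣ k → ∀ s : ℤ, s = 1 ∨ s = -1 →
    ∀ α : ℝ, 1 / Real.log 2 < α → α ≤ 2 / Real.log (4 / 3) →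
    (∀ ε : ℝ, 0 < ε → ∃ C : ℝ, 1 ≤ C ∧ ∀ x y : ℝ, 1 ≤ y → C * y ≤ x →
      y * (x / y) ^ (e α - ε) ≤
        (Set.ncard {n : ℤ | 0 < s * n ∧ y < |(n : ℝ)| ∧ |(n : ℝ)| ≤ x ∧
          ∃ j : ℕ, |(((T k)^[j] n : ℤ) : ℝ)| ≤ y ∧
            (j : ℝ) ≤ α * (Real.log |(n : ℝ)| - Real.log y)} : ℝ) ∧
      (Set.ncard {n : ℤ | 0 < s * n ∧ y < |(n : ℝ)| ∧ |(n : ℝ)| ≤ x ∧
          ∃ j : ℕ, |(((T k)^[j] n : ℤ) : ℝ)| ≤ y ∧
            (j : ℝ) ≤ α * (Real.log |(n : ℝ)| - Real.log y)} : ℝ) ≤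
        x ^ ε * (y * (x / y) ^ e α)) ∧
    (∀ δ : ℝ, 0 < δ → δ ≤ 1 → ∀ ε : ℝ, 0 < ε → ∃ X₀ : ℝ, ∀ x : ℝ, X₀ ≤ x →
      x ^ (1 - δ * (1 - e α) - ε) ≤
        (Set.ncard {n : ℤ | 0 < s * n ∧ |(n : ℝ)| ≤ x ∧
          ∃ j : ℕ, |(((T k)^[j] n : ℤ) : ℝ)| ≤ |(n : ℝ)| ^ (1 - δ) ∧
            (j : ℝ) ≤ α * (Real.log |(n : ℝ)| - Real.log |(((T k)^[j] n : ℤ) : ℝ)|)} : ℝ) ∧
      (Set.ncard {n : ℤ | 0 < s * n ∧ |(n : ℝ)| ≤ x ∧
          ∃ j : ℕ, |(((T k)^[j] n : ℤ) : ℝ)| ≤ |(n : ℝ)| ^ (1 - δ) ∧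
            (j : ℝ) ≤ α * (Real.log |(n : ℝ)| - Real.log |(((T k)^[j] n : ℤ) : ℝ)|)} : ℝ) ≤
        x ^ (1 - δ * (1 - e α) + ε)) := by
  have hl2 : 0 < Real.log 2 := Real.log_pos (by norm_num)
  refine ⟨fun α h1 h2 => ?_, ?_, ?_⟩
  · rw [e_eq h1]
    exact ⟨mul_pos (lt_trans (by positivity) h1) (Fp_pos3 h1 h2.le), ex_lt_one h1 h2⟩
  · rw [e_eq mean_gt, ex_mean]
  · intro k hk2 hk3 s hs α h1 h2
    have hA : Adm 3 k := ⟨Or.inl rfl, hk2, hk3⟩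
    refine ⟨fun ε hε => law3 hA hs h1 h2 hε, fun δ hδ hδ1 ε hε => ?_⟩
    obtain ⟨X₀, -, h⟩ := exc3 hA hs h1 h2 hδ hδ1 hε
    refine ⟨X₀, fun x hx => ?_⟩
    have e1 : 1 - e α = α * rate (1 / α) := by
      unfold e
      have : g (1 / α) = rate (1 / α) := rfl
      rw [this]
      ring
    rw [e1]
    exact h x hx

end Pool.Agent.Results.MP_7f88e4_nt.UniformLawOfFastDescent
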